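import Pool.Agent.Work.MP_db9399_exp.Interface
import Pool.Agent.Work.MP_db9399_co.Konig

/-! MP_db9399, THEOREM EXP: block REG (disjoint perfect matchings, Ore + Koenig). -/

set_option autoImplicit false

namespace Pool.Agent.Work.MP_db9399_exp.helper31

open Finset Classical
open Pool.Agent.Work.MP_db9399_exp

universe u

section
variable {α β : Type u} [Fintype α] [Fintype β]

/-- the edges -/
noncomputable def ES (Rl : α → β → Prop) : Finset (α × β) := univ.filter (fun e => Rl e.1 e.2)

lemma deg_sum (Rl : α → β → Prop) :
    (ES Rl).card = ∑ x : α, ((ES Rl).filter (fun e => e.1 = x)).card := by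
  rw [Finset.card_eq_sum_card_fiberwise (f := Prod.fst) (t := univ) (fun _ _ => mem_univ _)]

/-- a `D`-factor from Ore's condition -/
lemma exists_factor (Rl : α → β → Prop) (D : ℕ) (hc : Fintype.card α = Fintype.card β)
    (h : ∀ (A : Finset α) (B : Finset β), D * A.card ≤
      (univ.filter (fun e : α × β => e.1 ∈ A ∧ e.2 ∉ B ∧ Rl e.1 e.2)).card + D * B.card) :
    ∃ S : Finset (α × β), (∀ e ∈ S, Rl e.1 e.2) ∧ (∀ x, (S.filter (fun e => e.1 = x)).card = D) ∧
      ∀ y, (S.filter (fun e => e.2 = y)).card = D := by
  set dg : α → ℕ := fun x => ((ES Rl).filter (fun e => e.1 = x)).card with hdg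
  have hdeg : ∀ x, D ≤ dg x := by
    intro x
    have h1 := h {x} ∅
    simp only [card_singleton, mul_one, card_empty, mul_zero, add_zero] at h1
    refine h1.trans (card_le_card ?_)
    intro e he
    simp only [mem_filter, mem_univ, true_and, mem_singleton] at he
    simp only [ES, mem_filter, mem_univ, true_and]
    exact ⟨he.2.2, he.1⟩
  let SL := (Σ x : α, Fin (dg x - D)) ⊕ (β × Fin D)
  let t : SL → Finset (α × β) := fun s => match s with
    | Sum.inl p => (ES Rl).filter (fun e => e.1 = p.1)
    | Sum.inr p => (ES Rl).filter (fun e => e.2 = p.1)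
  have hall : ∀ s : Finset SL, s.card ≤ (s.biUnion t).card := by
    intro s
    set X : Finset α := univ.filter (fun x => ∃ i, Sum.inl (⟨x, i⟩ : Σ x : α, Fin (dg x - D)) ∈ s)
      with hX
    set Y : Finset β := univ.filter (fun y => ∃ i, Sum.inr ((y, i) : β × Fin D) ∈ s) with hY
    -- number of slots
    have h1 : s.card ≤ (∑ x ∈ X, (dg x - D)) + D * Y.card := by
      have hsub : s ⊆ (X.sigma (fun _ => univ)).disjSum (Y ×ˢ univ) := by
        intro p hp
        rcases p with ⟨x, i⟩ | ⟨y, i⟩
        · rw [Finset.inl_mem_disjSum]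
          simp only [mem_sigma, mem_univ, and_true, hX, mem_filter, true_and]
          exact ⟨i, hp⟩
        · rw [Finset.inr_mem_disjSum]
          simp only [mem_product, mem_univ, and_true, hY, mem_filter, true_and]
          exact ⟨i, hp⟩
      refine (card_le_card hsub).trans ?_
      rw [Finset.card_disjSum, Finset.card_sigma, Finset.card_product]
      simp only [Finset.card_univ, Fintype.card_fin]
      rw [mul_comm Y.card D]
    have h2 : (∑ x ∈ X, dg x) + (univ.filter (fun e : α × β => e.1 ∈ univ \ X ∧ e.2 ∉ univ \ Y ∧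
        Rl e.1 e.2)).card ≤ (s.biUnion t).card := by
      have e1 : ∑ x ∈ X, dg x = ((ES Rl).filter (fun e => e.1 ∈ X)).card := by
        rw [Finset.card_eq_sum_card_fiberwise (s := (ES Rl).filter (fun e => e.1 ∈ X))
          (f := Prod.fst) (t := X)
          (fun e he => (mem_filter.1 (mem_coe.1 he)).2)]
        refine Finset.sum_congr rfl fun x hx => ?_
        simp only [hdg]
        congr 1
        ext e
        simp only [mem_filter]
        constructor
        · rintro ⟨ha, hb⟩
          exact ⟨⟨ha, by rw [hb]; exact hx⟩, hb⟩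
        · rintro ⟨⟨ha, -⟩, hb⟩
          exact ⟨ha, hb⟩
      rw [e1, ← Finset.card_union_of_disjoint]
      · apply card_le_card
        intro e he
        rw [mem_union] at he
        rw [mem_biUnion]
        rcases he with he | he
        · obtain ⟨ha, hb⟩ := mem_filter.1 he
          simp only [hX, mem_filter, mem_univ, true_and] at hb
          obtain ⟨i, hi⟩ := hb
          exact ⟨_, hi, mem_filter.2 ⟨ha, rfl⟩⟩
        · simp only [mem_filter, mem_univ, true_and, mem_sdiff, not_not] at he
          obtain ⟨-, hb, hR⟩ := he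
          simp only [hY, mem_filter, mem_univ, true_and] at hb
          obtain ⟨i, hi⟩ := hb
          exact ⟨_, hi, mem_filter.2 ⟨by simp only [ES, mem_filter, mem_univ, true_and]; exact hR,
            rfl⟩⟩
      · rw [Finset.disjoint_left]
        intro e he he'
        have ha := (mem_filter.1 he).2
        have hb := (mem_filter.1 he').2.1
        exact (mem_sdiff.1 hb).2 ha
    have h3 := h (univ \ X) (univ \ Y)
    have cX : (univ \ X).card + X.card = Fintype.card α := by
      rw [Finset.card_sdiff_add_card, Finset.union_eq_left.2 (subset_univ _), Finset.card_univ]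
    have cY : (univ \ Y).card + Y.card = Fintype.card β := by
      rw [Finset.card_sdiff_add_card, Finset.union_eq_left.2 (subset_univ _), Finset.card_univ]
    have h4 : (∑ x ∈ X, (dg x - D)) + D * X.card = ∑ x ∈ X, dg x := by
      rw [mul_comm, ← smul_eq_mul X.card D, ← Finset.sum_const, ← Finset.sum_add_distrib]
      refine Finset.sum_congr rfl fun x _ => ?_
      have := hdeg x
      omega
    have h5 : D * (univ \ X).card + D * X.card = D * (univ \ Y).card + D * Y.card := by
      rw [← mul_add, ← mul_add, cX, cY, hc]
    omega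
  obtain ⟨f, hf, hft⟩ := (Finset.all_card_le_biUnion_card_iff_exists_injective t).1 hall
  -- `f` is onto the edges
  have hfE : ∀ s, f s ∈ ES Rl := by
    intro s
    have := hft s
    rcases s with p | p
    · exact (mem_filter.1 this).1
    · exact (mem_filter.1 this).1
  have hcard : Fintype.card SL = (ES Rl).card := by
    have e1 : Fintype.card SL = (∑ x : α, (dg x - D)) + Fintype.card β * D := by
      simp only [SL, Fintype.card_sum, Fintype.card_sigma, Fintype.card_prod, Fintype.card_fin]
    have e2 : (∑ x : α, (dg x - D)) + Fintype.card α * D = ∑ x : α, dg x := by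
      rw [← Finset.card_univ, ← smul_eq_mul, ← Finset.sum_const, ← Finset.sum_add_distrib]
      refine Finset.sum_congr rfl fun x _ => ?_
      have := hdeg x
      omega
    rw [e1, ← hc, e2, deg_sum Rl]
  have himg : (univ : Finset SL).image f = ES Rl := by
    apply Finset.eq_of_subset_of_card_le
    · intro e he
      obtain ⟨s, -, rfl⟩ := mem_image.1 he
      exact hfE s
    · rw [Finset.card_image_of_injective _ hf, Finset.card_univ, hcard]
  set S : Finset (α × β) := (univ : Finset (β × Fin D)).image (fun p => f (Sum.inr p)) with hS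
  have hinr : ∀ p : β × Fin D, (f (Sum.inr p)).2 = p.1 := fun p => (mem_filter.1 (hft (Sum.inr p))).2
  have hinl : ∀ p : (Σ x : α, Fin (dg x - D)), (f (Sum.inl p)).1 = p.1 :=
    fun p => (mem_filter.1 (hft (Sum.inl p))).2
  refine ⟨S, ?_, ?_, ?_⟩
  · intro e he
    obtain ⟨p, -, rfl⟩ := mem_image.1 he
    have := hfE (Sum.inr p)
    simp only [ES, mem_filter, mem_univ, true_and] at this
    exact this
  · intro x
    have e1 : (ES Rl).filter (fun e => e.1 = x) = S.filter (fun e => e.1 = x) ∪
        (univ : Finset (Fin (dg x - D))).image (fun i => f (Sum.inl ⟨x, i⟩)) := by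
      ext e
      simp only [mem_filter, mem_union, mem_image, mem_univ, true_and]
      constructor
      · rintro ⟨he, hx⟩
        rw [← himg] at he
        obtain ⟨s, -, rfl⟩ := mem_image.1 he
        rcases s with ⟨x', i⟩ | p
        · right
          have := hinl ⟨x', i⟩
          simp only at this
          have hxx : x' = x := this.symm.trans hx
          subst hxx
          exact ⟨i, rfl⟩
        · left
          exact ⟨mem_image.2 ⟨p, mem_univ _, rfl⟩, hx⟩
      · rintro (⟨he, hx⟩ | ⟨i, rfl⟩)
        · obtain ⟨p, -, rfl⟩ := mem_image.1 he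
          exact ⟨hfE _, hx⟩
        · exact ⟨hfE _, hinl ⟨x, i⟩⟩
    have e2 : Disjoint (S.filter (fun e => e.1 = x))
        ((univ : Finset (Fin (dg x - D))).image (fun i => f (Sum.inl ⟨x, i⟩))) := by
      rw [Finset.disjoint_left]
      intro e he he'
      obtain ⟨p, -, rfl⟩ := mem_image.1 (mem_filter.1 he).1
      obtain ⟨i, -, hi⟩ := mem_image.1 he'
      have := hf hi
      exact absurd this (by simp)
    have e3 := congrArg Finset.card e1
    rw [Finset.card_union_of_disjoint e2, Finset.card_image_of_injective, Finset.card_univ,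
      Fintype.card_fin] at e3
    · have h6 : ((ES Rl).filter (fun e => e.1 = x)).card = dg x := rfl
      have h7 := hdeg x
      omega
    · intro i j hij
      have h8 := Sum.inl.inj (hf hij)
      simpa using h8
  · intro y
    have e1 : S.filter (fun e => e.2 = y) =
        (univ : Finset (Fin D)).image (fun i => f (Sum.inr (y, i))) := by
      ext e
      simp only [mem_filter, mem_image, mem_univ, true_and, hS]
      constructor
      · rintro ⟨⟨⟨y', i⟩, rfl⟩, hy⟩
        have := hinr (y', i)
        simp only at this
        have hyy : y' = y := this.symm.trans hy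
        subst hyy
        exact ⟨i, rfl⟩
      · rintro ⟨i, rfl⟩
        exact ⟨⟨(y, i), rfl⟩, hinr (y, i)⟩
    rw [e1, Finset.card_image_of_injective, Finset.card_univ, Fintype.card_fin]
    intro i j hij
    exact (Prod.mk.inj (Sum.inr.inj (hf hij))).2

end

theorem stmt_REG : Stmt_REG.{u} := by
  intro α β _ _ Rl D hc h
  obtain ⟨S, hSR, hSx, hSy⟩ := exists_factor Rl D hc h
  obtain ⟨κ, hκ1, hκ2⟩ := _root_.MP_db9399_co.konig (Prod.fst : α × β → α) Prod.snd D S
    (fun v => (hSx v).le) (fun v => (hSy v).le)
  have hex : ∀ (i : Fin D) (x : α), ∃ y, (x, y) ∈ S ∧ κ (x, y) = i := by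
    intro i x
    have h1 : (S.filter (fun e => e.1 = x)).image κ = range D := by
      apply Finset.eq_of_subset_of_card_le
      · intro j hj
        obtain ⟨e, he, rfl⟩ := mem_image.1 hj
        exact mem_range.2 (hκ1 e (mem_filter.1 he).1)
      · rw [Finset.card_image_of_injOn, card_range, hSx x]
        intro e he e' he' hee
        have he := mem_filter.1 (mem_coe.1 he)
        have he' := mem_filter.1 (mem_coe.1 he')
        by_contra hne
        exact hκ2 e he.1 e' he'.1 hne (Or.inl (he.2.trans he'.2.symm)) hee
    have h2 : (i : ℕ) ∈ (S.filter (fun e => e.1 = x)).image κ := by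
      rw [h1]; exact mem_range.2 i.2
    obtain ⟨⟨x', y⟩, he, hi⟩ := mem_image.1 h2
    obtain ⟨he1, he2⟩ := mem_filter.1 he
    simp only at he2
    subst he2
    exact ⟨y, he1, hi⟩
  choose m hm1 hm2 using hex
  have hinj : ∀ i, Function.Injective (m i) := by
    intro i x x' hxx
    by_contra hne
    refine hκ2 (x, m i x) (hm1 i x) (x', m i x') (hm1 i x') ?_ (Or.inr hxx) ?_
    · intro h; exact hne (congrArg Prod.fst h)
    · rw [hm2, hm2]
  refine ⟨fun i => Equiv.ofBijective (m i)
    ((Fintype.bijective_iff_injective_and_card _).2 ⟨hinj i, hc⟩), ?_, ?_⟩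
  · intro i x
    exact hSR _ (hm1 i x)
  · intro i j hij x hx
    apply hij
    have hx' : m i x = m j x := hx
    have h1 := hm2 i x
    have h2 := hm2 j x
    rw [hx', h2] at h1
    exact (Fin.ext h1).symm

end Pool.Agent.Work.MP_db9399_exp.helper31
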