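import Pool.Agent.Work.MP_db9399_exp_helper31.REG

/-! MP_db9399, THEOREM EXP: block REGX (disjoint almost perfect matchings, from REG). -/

set_option autoImplicit false

namespace Pool.Agent.Work.MP_db9399_exp.helper31

open Finset Classical
open Pool.Agent.Work.MP_db9399_all (nb)
open Pool.Agent.Work.MP_db9399_exp

universe u

section
variable {V : Type u} [Fintype V]

/-- number of edges between `A` and `B`, as a real number -/
noncomputable def eR (G : SimpleGraph V) (A B : Finset V) : ℝ := ∑ a ∈ A, ((nb G a ∩ B).card : ℝ)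

lemma eR_symm (G : SimpleGraph V) (A B : Finset V) : eR G A B = eR G B A := by
  have h1 : ∀ X Y : Finset V, eR G X Y = ∑ a ∈ X, ∑ b ∈ Y, if G.Adj a b then (1 : ℝ) else 0 := by
    intro X Y
    unfold eR
    refine Finset.sum_congr rfl fun a _ => ?_
    rw [← Finset.sum_filter, Finset.sum_const, nsmul_eq_mul, mul_one]
    congr 2
    ext b
    simp only [nb, mem_inter, mem_filter, mem_univ, true_and]
    tauto
  rw [h1, h1, Finset.sum_comm]
  refine Finset.sum_congr rfl fun a _ => Finset.sum_congr rfl fun b _ => ?_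
  simp [G.adj_comm]

lemma eR_sdiff (G : SimpleGraph V) (A B B' : Finset V) (h : B' ⊆ B) :
    eR G A (B \ B') = eR G A B - eR G A B' := by
  unfold eR
  rw [← Finset.sum_sub_distrib]
  refine Finset.sum_congr rfl fun a _ => ?_
  have e1 : nb G a ∩ B = (nb G a ∩ (B \ B')) ∪ (nb G a ∩ B') := by
    rw [← Finset.inter_union_distrib_left, Finset.sdiff_union_of_subset h]
  have e2 : Disjoint (nb G a ∩ (B \ B')) (nb G a ∩ B') := by
    refine Finset.disjoint_left.2 fun x hx hx' => ?_
    exact (mem_sdiff.1 (mem_inter.1 hx).2).2 (mem_inter.1 hx').2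
  rw [e1, Finset.card_union_of_disjoint e2]
  push_cast
  ring

lemma eR_mono_left (G : SimpleGraph V) {A A' B : Finset V} (h : A ⊆ A') : eR G A B ≤ eR G A' B :=
  Finset.sum_le_sum_of_subset_of_nonneg h fun _ _ _ => by positivity

lemma eR_mono_right (G : SimpleGraph V) {A B B' : Finset V} (h : B ⊆ B') : eR G A B ≤ eR G A B' :=
  Finset.sum_le_sum fun _ _ => by exact_mod_cast card_le_card (inter_subset_inter_left h)

lemma eR_le_mul (G : SimpleGraph V) (A B : Finset V) : eR G A B ≤ A.card * B.card := by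
  unfold eR
  calc ∑ a ∈ A, ((nb G a ∩ B).card : ℝ) ≤ ∑ _a ∈ A, (B.card : ℝ) :=
        Finset.sum_le_sum fun a _ => by exact_mod_cast card_le_card inter_subset_right
    _ = A.card * B.card := by rw [Finset.sum_const, nsmul_eq_mul]

lemma eR_deg_lo (G : SimpleGraph V) (q σ : ℝ) (A B A' : Finset V) (hA : A' ⊆ A)
    (h : ∀ v ∈ A, |((nb G v ∩ B).card : ℝ) - q| ≤ σ * q) : (q - σ * q) * A'.card ≤ eR G A' B := by
  unfold eR
  calc (q - σ * q) * A'.card = ∑ _a ∈ A', (q - σ * q) := by
        rw [Finset.sum_const, nsmul_eq_mul]; ring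
    _ ≤ _ := Finset.sum_le_sum fun a ha => by
        have := abs_le.1 (h a (hA ha))
        linarith [this.1]

lemma eR_deg_hi (G : SimpleGraph V) (q σ : ℝ) (A B A' : Finset V) (hA : A' ⊆ A)
    (h : ∀ v ∈ A, |((nb G v ∩ B).card : ℝ) - q| ≤ σ * q) : eR G A' B ≤ (q + σ * q) * A'.card := by
  unfold eR
  calc _ ≤ ∑ _a ∈ A', (q + σ * q) := Finset.sum_le_sum fun a ha => by
        have := abs_le.1 (h a (hA ha))
        linarith [this.2]
    _ = (q + σ * q) * A'.card := by rw [Finset.sum_const, nsmul_eq_mul]; ring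

/-- The main inequality. -/
lemma main_ineq (G : SimpleGraph V) (q g η σ : ℝ) (D : ℕ) (A B : Finset V)
    (hq : 0 < q) (hg : 0 < g) (_hg1 : g ≤ 1) (hη : 0 < η) (hσ : 0 ≤ σ)
    (hσg : 4 * σ ≤ g * η) (hD : (D : ℝ) ≤ (1 - η) * q)
    (hAB : A.card ≤ B.card) (hBA : B.card ≤ A.card + 1) (hF : FI G q g A B)
    (hF' : FI G q g B A)
    (hdA : ∀ v ∈ A, |((nb G v ∩ B).card : ℝ) - q| ≤ σ * q)
    (hdB : ∀ v ∈ B, |((nb G v ∩ A).card : ℝ) - q| ≤ σ * q)
    (A' B' : Finset V) (hA' : A' ⊆ A) (hB' : B' ⊆ B) (hab : B'.card ≤ A'.card) :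
    (D : ℝ) * ((A'.card : ℝ) - B'.card) ≤ eR G A' (B \ B') := by
  set a : ℝ := (A'.card : ℝ) with ha
  set b : ℝ := (B'.card : ℝ) with hb
  have hab' : b ≤ a := by rw [ha, hb]; exact_mod_cast hab
  have ha0 : 0 ≤ a := by positivity
  have hb0 : 0 ≤ b := by positivity
  have hDq : (D : ℝ) * (a - b) ≤ (1 - η) * q * (a - b) :=
    mul_le_mul_of_nonneg_right hD (by linarith)
  have hDq' : (D : ℝ) * (a - b) ≤ q * (a - b) := by
    have : 0 ≤ η * q * (a - b) := by
      have := sub_nonneg.2 hab'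
      positivity
    linarith
  -- degrees
  have h1 : q * (a - b) - 2 * σ * q * a ≤ eR G A' (B \ B') := by
    rw [eR_sdiff G A' B B' hB']
    have e1 := eR_deg_lo G q σ A B A' hA' hdA
    have e2 : eR G A' B' ≤ (q + σ * q) * b := by
      calc eR G A' B' ≤ eR G A B' := eR_mono_left G hA'
        _ = eR G B' A := eR_symm G _ _
        _ ≤ _ := eR_deg_hi G q σ B A B' hB' hdB
    have e3 : σ * q * b ≤ σ * q * a := mul_le_mul_of_nonneg_left hab' (by positivity)
    linarith
  by_cases hc1 : 2 * σ * a ≤ η * (a - b)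
  · have : q * (2 * σ * a) ≤ q * (η * (a - b)) := mul_le_mul_of_nonneg_left hc1 hq.le
    linarith
  push Not at hc1
  -- now a - b is small
  have hsm : (a - b) ≤ g / 2 * a := by
    have h2 : η * (a - b) ≤ η * (g / 2 * a) := by
      have : 2 * σ * a ≤ g * η / 2 * a := mul_le_mul_of_nonneg_right (by linarith) ha0
      linarith
    exact le_of_mul_le_mul_left h2 hη
  have hfin : ∀ x : ℝ, 0 ≤ x → a - b ≤ g * x → g * q * x ≤ eR G A' (B \ B') →
      (D : ℝ) * (a - b) ≤ eR G A' (B \ B') := by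
    intro x _ hx hx'
    have : q * (a - b) ≤ q * (g * x) := mul_le_mul_of_nonneg_left hx hq.le
    linarith
  by_cases hc2 : 2 * A'.card ≤ A.card + 2
  · have h3 := hF A' B' hA' hB' hc2
    change g * q * a ≤ eR G A' (B \ B') + q / 2 * (b - a) at h3
    refine hfin a ha0 ?_ ?_
    · have h7 : 0 ≤ g / 2 * a := by positivity
      linarith
    · have : 0 ≤ q / 2 * (a - b) := by
        have := sub_nonneg.2 hab'
        positivity
      linarith
  push Not at hc2
  have hcB : (B \ B').card + B'.card = B.card := Finset.card_sdiff_add_card_eq_card hB'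
  have hcA : (A \ A').card + A'.card = A.card := Finset.card_sdiff_add_card_eq_card hA'
  by_cases hc3 : 2 * (B \ B').card ≤ B.card + 2
  · -- the other side
    set c : ℝ := ((B \ B').card : ℝ) with hcdef
    set ac : ℝ := ((A \ A').card : ℝ) with hacdef
    have hcc : a - b ≤ c - ac := by
      have h4 : (A'.card : ℝ) + (A \ A').card ≤ (B \ B').card + B'.card := by
        have : A'.card + (A \ A').card ≤ (B \ B').card + B'.card := by omega
        exact_mod_cast this
      linarith
    have hc0 : 0 ≤ c := by positivity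
    have hac0 : 0 ≤ ac := by positivity
    have h3 := hF' (B \ B') (A \ A') sdiff_subset sdiff_subset hc3
    have e0 : A \ (A \ A') = A' := by
      rw [Finset.sdiff_sdiff_eq_self hA']
    rw [e0] at h3
    change g * q * c ≤ eR G (B \ B') A' + q / 2 * (ac - c) at h3
    rw [eR_symm G (B \ B') A'] at h3
    by_cases hc4 : 2 * σ * c ≤ η * (a - b)
    · have h5 : q * (c - ac) - 2 * σ * q * c ≤ eR G A' (B \ B') := by
        have e1 := eR_deg_lo G q σ B A (B \ B') sdiff_subset hdB
        have e2 : eR G (B \ B') (A \ A') ≤ (q + σ * q) * ac := by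
          calc eR G (B \ B') (A \ A') ≤ eR G B (A \ A') := eR_mono_left G sdiff_subset
            _ = eR G (A \ A') B := eR_symm G _ _
            _ ≤ _ := eR_deg_hi G q σ A B (A \ A') sdiff_subset hdA
        have e3 : eR G A' (B \ B') = eR G (B \ B') A - eR G (B \ B') (A \ A') := by
          rw [eR_symm G A' (B \ B')]
          have := eR_sdiff G (B \ B') A A' hA'
          linarith
        have e4 : σ * q * ac ≤ σ * q * c := mul_le_mul_of_nonneg_left (by linarith) (by positivity)
        rw [e3]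
        linarith
      have h6 : q * (2 * σ * c) ≤ q * (η * (a - b)) := mul_le_mul_of_nonneg_left hc4 hq.le
      have h7 : q * (a - b) ≤ q * (c - ac) := mul_le_mul_of_nonneg_left hcc hq.le
      linarith
    · push Not at hc4
      have hsm' : (a - b) ≤ g / 2 * c := by
        have h2 : η * (a - b) ≤ η * (g / 2 * c) := by
          have : 2 * σ * c ≤ g * η / 2 * c := mul_le_mul_of_nonneg_right (by linarith) hc0
          linarith
        exact le_of_mul_le_mul_left h2 hη
      refine hfin c hc0 ?_ ?_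
      · have h7 : 0 ≤ g / 2 * c := by positivity
        linarith
      · have : 0 ≤ q / 2 * (c - ac) := by
          have : 0 ≤ c - ac := by linarith
          positivity
        linarith
  · push Not at hc3
    -- a subset of A' of size floor((|A|+2)/2)
    have hlt : (A.card + 2) / 2 ≤ A'.card := by omega
    obtain ⟨A0, hA0, hA0c⟩ := Finset.exists_subset_card_eq hlt
    have hb2 : B'.card ≤ A0.card := by omega
    have h3 := hF A0 B' (hA0.trans hA') hB' (by omega)
    change g * q * (A0.card : ℝ) ≤ eR G A0 (B \ B') + q / 2 * ((B'.card : ℝ) - A0.card) at h3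
    have h4 : ((B'.card : ℝ)) ≤ A0.card := by exact_mod_cast hb2
    have h5 : a ≤ 2 * (A0.card : ℝ) := by
      have : A'.card ≤ 2 * A0.card := by
        have : A'.card ≤ A.card := card_le_card hA'
        omega
      rw [ha]; exact_mod_cast this
    have h6 := eR_mono_left G (B := B \ B') hA0
    refine hfin (A0.card : ℝ) (by positivity) ?_ ?_
    · have h7 : g / 2 * a ≤ g / 2 * (2 * (A0.card : ℝ)) :=
        mul_le_mul_of_nonneg_left h5 (by positivity)
      linarith
    · have : 0 ≤ q / 2 * ((A0.card : ℝ) - B'.card) := by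
        have := sub_nonneg.2 h4
        positivity
      linarith

lemma eR_nonneg (G : SimpleGraph V) (A B : Finset V) : 0 ≤ eR G A B :=
  Finset.sum_nonneg fun _ _ => Nat.cast_nonneg _

/-- The inequality with the dummy vertex. -/
lemma main_ineq' (G : SimpleGraph V) (q g η σ : ℝ) (D : ℕ) (A B : Finset V)
    (hq : 0 < q) (hg : 0 < g) (hg1 : g ≤ 1) (hη : 0 < η) (hσ : 0 ≤ σ)
    (hσg : 4 * σ ≤ g * η) (hD : (D : ℝ) ≤ (1 - η) * q)
    (hAB : B.card = A.card + 1) (hF : FI G q g A B) (hF' : FI G q g B A)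
    (hdA : ∀ v ∈ A, |((nb G v ∩ B).card : ℝ) - q| ≤ σ * q)
    (hdB : ∀ v ∈ B, |((nb G v ∩ A).card : ℝ) - q| ≤ σ * q)
    (A' B' : Finset V) (hA' : A' ⊆ A) (hB' : B' ⊆ B) :
    (D : ℝ) * ((A'.card : ℝ) + 1 - B'.card) ≤ eR G A' (B \ B') + (B \ B').card := by
  have hcB : (B \ B').card + B'.card = B.card := Finset.card_sdiff_add_card_eq_card hB'
  have hcA : (A \ A').card + A'.card = A.card := Finset.card_sdiff_add_card_eq_card hA'
  have h0 : 0 ≤ eR G A' (B \ B') := eR_nonneg G _ _
  obtain ⟨C, hC⟩ : ∃ C, C = B \ B' := ⟨_, rfl⟩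
  obtain ⟨Ac, hAc⟩ : ∃ Ac, Ac = A \ A' := ⟨_, rfl⟩
  rw [← hC] at hcB h0 ⊢
  rw [← hAc] at hcA
  have hCB : C ⊆ B := hC ▸ sdiff_subset
  have hC0 : (0 : ℝ) ≤ (C.card : ℝ) := Nat.cast_nonneg _
  have hA0 : (0 : ℝ) ≤ (Ac.card : ℝ) := Nat.cast_nonneg _
  by_cases hab : B'.card ≤ A'.card
  · by_cases hc : D ≤ C.card
    · have h1 := main_ineq G q g η σ D A B hq hg hg1 hη hσ hσg hD (by omega) (by omega)
        hF hF' hdA hdB A' B' hA' hB' hab
      rw [← hC] at h1
      have h2 : (D : ℝ) ≤ (C.card : ℝ) := Nat.cast_le.2 hc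
      linarith
    · push Not at hc
      have hc' : (C.card : ℝ) ≤ D := Nat.cast_le.2 hc.le
      have e1 := eR_deg_lo G q σ B A C hCB hdB
      have e2 : eR G C Ac ≤ Ac.card * D := by
        calc eR G C Ac ≤ C.card * Ac.card := eR_le_mul G _ _
          _ = Ac.card * C.card := mul_comm _ _
          _ ≤ Ac.card * D := mul_le_mul_of_nonneg_left hc' hA0
      have e3 : eR G A' C = eR G C A - eR G C Ac := by
        rw [eR_symm G A' C, hAc]
        have := eR_sdiff G C A A' hA'
        linarith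
      have e4 : (A'.card : ℝ) + 1 - B'.card = C.card - Ac.card := by
        have h5 : A'.card + 1 + Ac.card = C.card + B'.card := by omega
        have h6 : (A'.card : ℝ) + 1 + Ac.card = C.card + B'.card := by exact_mod_cast h5
        linarith
      have hση : σ ≤ η := by
        have : g * η ≤ 1 * η := mul_le_mul_of_nonneg_right hg1 hη.le
        linarith
      have e5 : (D : ℝ) * C.card ≤ (q - σ * q) * C.card := by
        apply mul_le_mul_of_nonneg_right _ hC0
        have : σ * q ≤ η * q := mul_le_mul_of_nonneg_right hση hq.le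
        linarith
      rw [e3, e4]
      linarith
  · push Not at hab
    have h1 : (A'.card : ℝ) + 1 ≤ B'.card := by exact_mod_cast hab
    have h2 : (D : ℝ) * ((A'.card : ℝ) + 1 - B'.card) ≤ 0 :=
      mul_nonpos_of_nonneg_of_nonpos (Nat.cast_nonneg _) (by linarith)
    linarith

end

theorem regx_of_reg (REG : Stmt_REG.{u}) : Stmt_REGX.{u} := by
  intro V _ G q g η σ D A B hq hg hg1 hη hη1 hσ hσg hD hdis hAB hBA hF hF' hdA hdB
  obtain ⟨p, hp⟩ : ∃ p, B.card = A.card + p := ⟨B.card - A.card, by omega⟩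
  have hp1 : p ≤ 1 := by omega
  let α := {x // x ∈ A} ⊕ ULift.{u} (Fin p)
  let β := {y // y ∈ B}
  let Rl : α → β → Prop := fun s y => match s with
    | Sum.inl a => G.Adj a.1 y.1
    | Sum.inr _ => True
  have hcard : Fintype.card α = Fintype.card β := by
    simp only [α, β, Fintype.card_sum, Fintype.card_coe, Fintype.card_ulift, Fintype.card_fin]
    exact hp.symm
  have hore : ∀ (𝒜 : Finset α) (ℬ : Finset β), D * 𝒜.card ≤
      (univ.filter (fun e : α × β => e.1 ∈ 𝒜 ∧ e.2 ∉ ℬ ∧ Rl e.1 e.2)).card + D * ℬ.card := by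
    intro 𝒜 ℬ
    obtain ⟨A', hA'⟩ : ∃ A' : Finset V, A' = 𝒜.toLeft.map (Function.Embedding.subtype _) :=
      ⟨_, rfl⟩
    obtain ⟨B', hB'⟩ : ∃ B' : Finset V, B' = ℬ.map (Function.Embedding.subtype _) := ⟨_, rfl⟩
    have hA'A : A' ⊆ A := by
      intro x hx
      rw [hA'] at hx
      obtain ⟨a, -, rfl⟩ := mem_map.1 hx
      exact a.2
    have hB'B : B' ⊆ B := by
      intro x hx
      rw [hB'] at hx
      obtain ⟨a, -, rfl⟩ := mem_map.1 hx
      exact a.2
    have cA : A'.card = 𝒜.toLeft.card := by rw [hA', card_map]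
    have cB : B'.card = ℬ.card := by rw [hB', card_map]
    have c𝒜 : 𝒜.card = A'.card + 𝒜.toRight.card := by
      rw [cA, card_toLeft_add_card_toRight]
    have cR : 𝒜.toRight.card ≤ p := by
      calc 𝒜.toRight.card ≤ Fintype.card (ULift.{u} (Fin p)) := card_le_univ _
        _ = p := by simp
    -- number of edges
    have hmemB : ∀ y : β, y.1 ∈ B' ↔ y ∈ ℬ := by
      intro y
      rw [hB', mem_map]
      constructor
      · rintro ⟨z, hz, hzy⟩
        have : z = y := Subtype.ext hzy
        exact this ▸ hz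
      · intro h; exact ⟨y, h, rfl⟩
    obtain ⟨cnt, hcnt⟩ : ∃ cnt : α → ℕ, ∀ x, cnt x =
        ((univ : Finset β).filter (fun y => y ∉ ℬ ∧ Rl x y)).card := ⟨_, fun _ => rfl⟩
    have hfib : ∀ x : α, ((univ.filter (fun e : α × β => e.1 ∈ 𝒜 ∧ e.2 ∉ ℬ ∧ Rl e.1 e.2)).filter
        (fun e => e.1 = x)).card = if x ∈ 𝒜 then cnt x else 0 := by
      intro x
      split_ifs with hx
      · rw [hcnt]
        refine Finset.card_bij' (fun e _ => e.2) (fun y _ => (x, y)) ?_ ?_ ?_ ?_
        · intro e he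
          simp only [mem_filter, mem_univ, true_and] at he ⊢
          obtain ⟨⟨h1, h2, h3⟩, rfl⟩ := he
          exact ⟨h2, h3⟩
        · intro y hy
          simp only [mem_filter, mem_univ, true_and] at hy ⊢
          exact ⟨⟨hx, hy.1, hy.2⟩, trivial⟩
        · intro e he
          simp only [mem_filter, mem_univ, true_and] at he
          obtain ⟨-, rfl⟩ := he
          rfl
        · intro y _; rfl
      · rw [card_eq_zero, Finset.filter_eq_empty_iff]
        intro e he hex
        simp only [mem_filter, mem_univ, true_and] at he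
        exact hx (hex ▸ he.1)
    have hL : ∀ a : {x // x ∈ A}, cnt (Sum.inl a) = (nb G a.1 ∩ (B \ B')).card := by
      intro a
      rw [hcnt]
      refine Finset.card_bij (fun y _ => y.1) ?_ ?_ ?_
      · intro y hy
        simp only [mem_filter, mem_univ, true_and] at hy
        simp only [nb, mem_inter, mem_filter, mem_univ, true_and, mem_sdiff]
        exact ⟨hy.2, y.2, fun h => hy.1 ((hmemB y).1 h)⟩
      · intro y _ z _ h; exact Subtype.ext h
      · intro v hv
        simp only [nb, mem_inter, mem_filter, mem_univ, true_and, mem_sdiff] at hv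
        refine ⟨⟨v, hv.2.1⟩, ?_, rfl⟩
        simp only [mem_filter, mem_univ, true_and]
        exact ⟨fun h => hv.2.2 ((hmemB ⟨v, hv.2.1⟩).2 h), hv.1⟩
    have hR : ∀ a : ULift.{u} (Fin p), cnt (Sum.inr a) = (B \ B').card := by
      intro a
      rw [hcnt]
      refine Finset.card_bij (fun y _ => y.1) ?_ ?_ ?_
      · intro y hy
        simp only [mem_filter, mem_univ, true_and] at hy
        simp only [mem_sdiff]
        exact ⟨y.2, fun h => hy.1 ((hmemB y).1 h)⟩
      · intro y _ z _ h; exact Subtype.ext h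
      · intro v hv
        simp only [mem_sdiff] at hv
        refine ⟨⟨v, hv.1⟩, ?_, rfl⟩
        simp only [mem_filter, mem_univ, true_and]
        exact ⟨fun h => hv.2 ((hmemB ⟨v, hv.1⟩).2 h), trivial⟩
    have hE : ((univ.filter (fun e : α × β => e.1 ∈ 𝒜 ∧ e.2 ∉ ℬ ∧ Rl e.1 e.2)).card : ℝ) =
        eR G A' (B \ B') + 𝒜.toRight.card * (B \ B').card := by
      rw [Finset.card_eq_sum_card_fiberwise (f := Prod.fst) (t := univ) (fun _ _ => mem_univ _)]
      rw [Finset.sum_congr rfl (fun x _ => hfib x), Finset.sum_ite_mem, univ_inter]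
      conv_lhs => rw [← Finset.toLeft_disjSum_toRight (u := 𝒜)]
      rw [Finset.sum_disjSum, Finset.sum_congr rfl (fun a _ => hL a),
        Finset.sum_congr rfl (fun a _ => hR a), Finset.sum_const, smul_eq_mul]
      unfold eR
      rw [hA', Finset.sum_map]
      push_cast
      rfl
    have hmain : (D : ℝ) * 𝒜.card ≤
        ((univ.filter (fun e : α × β => e.1 ∈ 𝒜 ∧ e.2 ∉ ℬ ∧ Rl e.1 e.2)).card : ℝ) +
          D * ℬ.card := by
      rw [hE, c𝒜, ← cB]
      push_cast
      have h0 := eR_nonneg G A' (B \ B')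
      rcases Nat.lt_or_ge 𝒜.toRight.card 1 with h1 | h1
      · have h2 : 𝒜.toRight.card = 0 := by omega
        rw [h2]
        push_cast
        by_cases hab : B'.card ≤ A'.card
        · have := main_ineq G q g η σ D A B hq hg hg1 hη hσ hσg hD hAB hBA hF hF' hdA hdB
            A' B' hA'A hB'B hab
          linarith
        · push Not at hab
          have h3 : (A'.card : ℝ) ≤ B'.card := Nat.cast_le.2 hab.le
          have h4 : (D : ℝ) * A'.card ≤ D * B'.card :=
            mul_le_mul_of_nonneg_left h3 (Nat.cast_nonneg _)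
          linarith
      · have h2 : 𝒜.toRight.card = 1 := by omega
        have h3 : B.card = A.card + 1 := by omega
        have := main_ineq' G q g η σ D A B hq hg hg1 hη hσ hσg hD h3 hF hF' hdA hdB
            A' B' hA'A hB'B
        rw [h2]
        push_cast
        linarith
    exact_mod_cast hmain
  obtain ⟨N, hN1, hN2⟩ := REG α β Rl D hcard (fun 𝒜 ℬ => by convert hore 𝒜 ℬ)
  obtain ⟨M, hM⟩ : ∃ M : Fin D → V → V → Prop, ∀ i x y, M i x y ↔
    ∃ (hx : x ∈ A) (hy : y ∈ B), N i (Sum.inl ⟨x, hx⟩) = ⟨y, hy⟩ := ⟨_, fun _ _ _ => Iff.rfl⟩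
  refine ⟨M, ?_, ?_, ?_, ?_, ?_, ?_, ?_⟩
  · intro i x y hxy
    obtain ⟨hx, hy, h⟩ := (hM i x y).1 hxy
    refine ⟨hx, hy, ?_⟩
    have := hN1 i (Sum.inl ⟨x, hx⟩)
    rw [h] at this
    exact this
  · intro i x hx
    exact ⟨(N i (Sum.inl ⟨x, hx⟩)).1, (hM i _ _).2 ⟨hx, (N i (Sum.inl ⟨x, hx⟩)).2, rfl⟩⟩
  · intro i x y y' hxy hxy'
    obtain ⟨hx, hy, h⟩ := (hM i x y).1 hxy
    obtain ⟨hx', hy', h'⟩ := (hM i x y').1 hxy'
    rw [h] at h'
    exact congrArg Subtype.val h'
  · intro i x x' y hxy hxy'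
    obtain ⟨hx, hy, h⟩ := (hM i x y).1 hxy
    obtain ⟨hx', hy', h'⟩ := (hM i x' y).1 hxy'
    have := (N i).injective (h.trans h'.symm)
    exact congrArg Subtype.val (Sum.inl.inj this)
  · intro i j x y hxy hxy'
    obtain ⟨hx, hy, h⟩ := (hM i x y).1 hxy
    obtain ⟨hx', hy', h'⟩ := (hM j x y).1 hxy'
    by_contra hij
    exact hN2 i j hij (Sum.inl ⟨x, hx⟩) (h.trans h'.symm)
  · -- unmatched vertices
    intro i
    have hun : ∀ y ∈ B.filter (fun y => ∀ x, ¬ M i x y),
        ∃ d, ∃ hy : y ∈ B, N i (Sum.inr d) = ⟨y, hy⟩ := by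
      intro y hy
      obtain ⟨hyB, hyx⟩ := mem_filter.1 hy
      rcases hs : (N i).symm ⟨y, hyB⟩ with a | d
      · exfalso
        apply hyx a.1
        exact (hM i _ _).2 ⟨a.2, hyB, by rw [Subtype.coe_eta, ← hs, Equiv.apply_symm_apply]⟩
      · exact ⟨d, hyB, by rw [← hs, Equiv.apply_symm_apply]⟩
    rw [Finset.card_le_one]
    intro y hy y' hy'
    obtain ⟨d, h1, h2⟩ := hun y hy
    obtain ⟨d', h1', h2'⟩ := hun y' hy'
    have hdd : d = d' := by
      have : ∀ a b : Fin p, a = b := fun a b => by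
        have := a.2
        have := b.2
        exact Fin.ext (by omega)
      exact ULift.ext _ _ (this _ _)
    subst hdd
    rw [h2] at h2'
    exact congrArg Subtype.val h2'
  · intro y hyB
    have hun : ∀ i, (∀ x, ¬ M i x y) → ∃ d, N i (Sum.inr d) = ⟨y, hyB⟩ := by
      intro i hyx
      rcases hs : (N i).symm ⟨y, hyB⟩ with a | d
      · exfalso
        apply hyx a.1
        exact (hM i _ _).2 ⟨a.2, hyB, by rw [Subtype.coe_eta, ← hs, Equiv.apply_symm_apply]⟩
      · exact ⟨d, by rw [← hs, Equiv.apply_symm_apply]⟩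
    rw [Finset.card_le_one]
    intro i hi j hj
    obtain ⟨d, h2⟩ := hun i (mem_filter.1 hi).2
    obtain ⟨d', h2'⟩ := hun j (mem_filter.1 hj).2
    have hdd : d = d' := by
      have : ∀ a b : Fin p, a = b := fun a b => by
        have := a.2
        have := b.2
        exact Fin.ext (by omega)
      exact ULift.ext _ _ (this _ _)
    subst hdd
    by_contra hij
    exact hN2 i j hij (Sum.inr d) (h2.trans h2'.symm)

theorem stmt_REGX : Stmt_REGX.{u} := regx_of_reg stmt_REG

end Pool.Agent.Work.MP_db9399_exp.helper31
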